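import Pool.Agent.V11230.HB2

/-!
# Under the Small Set Expansion Hypothesis neither GlobalECC nor RobustECC has a constant-factor
# single-criteria approximation

From clustering to Minimum k-Union: each set `i` is a node, with many hyperedges of colour `0` (each
with one more private node), and each element `x` is a hyperedge of colour `1` that consists of the
nodes of the sets that contain `x` and a private node.  The budget is the number of the sets minus
`k`.  A good solution gives the colour `0` to each node of a set, and at least `k` of these nodes do
not have the colour `1`; the hyperedges of the elements of these sets are mistakes.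

From Minimum k-Union to small set expansion: the sets are the ordered pairs of adjacent vertices.
If `k` of them have a union `T` with at most `α s` vertices, cut `T` into `3 α` blocks of at most
`s / 2` vertices; the union of two of the blocks contains many pairs.
-/

set_option autoImplicit false

namespace Pool.Agent.Results.MP_dc7e63_lc.SmallSetHard

open Pool.Agent.NPC Pool.Agent.NPC.V11230.HAP Pool.Agent.NPC.V11230.HBP Pool.Agent.V11230.HB

/-- The gap problem of small set expansion for sets of `δ n` vertices in regular graphs with `n`
vertices is solvable in polynomial time. -/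
def GapSseAt (η δ : ℝ) : Prop :=
  ∃ B : List Bool → List Bool, PolyTime B ∧ ∀ (M : List (List Bool)) (d s : ℕ),
    Regular M d → 1 ≤ d → 1 ≤ s → s ≤ M.length → (s : ℝ) = δ * M.length →
    (SseYes η M d s → B (bits (M, d, s)) = [true]) ∧
    (SseNo η M d s → B (bits (M, d, s)) = [false])

/-- **The Small Set Expansion Hypothesis** (Raghavendra and Steurer), for polynomial-time
algorithms: for each `η > 0` there is `δ > 0` such that no polynomial-time algorithm tells apart the
regular graphs in which some set of `δ n` vertices has expansion at most `η` and those in which each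
such set has expansion at least `1 - η`. -/
def SSEH : Prop := ∀ η : ℝ, 0 < η → ∃ δ : ℝ, 0 < δ ∧ ¬ GapSseAt η δ

/-- **A constant-factor single-criteria approximation for GlobalECC or for RobustECC gives one for
Minimum k-Union, with the same factor, and a polynomial-time algorithm for the gap problem of small
set expansion. So under the Small Set Expansion Hypothesis there is none.** -/
theorem result :
    (∀ α : ℕ, Approx GlobalOK α ∨ Approx RobustOK α →
      MkUApprox α ∧ ∀ η : ℝ, η * (9 * α ^ 2 + 2) ≤ 1 → GapSse η) ∧
    (SSEH → ∀ α : ℕ, ¬ Approx GlobalOK α ∧ ¬ Approx RobustOK α) := by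
  have h1 : ∀ α : ℕ, Approx GlobalOK α ∨ Approx RobustOK α →
      MkUApprox α ∧ ∀ η : ℝ, η * (9 * α ^ 2 + 2) ≤ 1 → GapSse η := by
    intro α h
    have h2 : MkUApprox α := h.elim global_transfer robust_transfer
    exact ⟨h2, fun η hη => gapSse_of_mkU h2 hη⟩
  have h3 : SSEH → ∀ α : ℕ, ¬ (Approx GlobalOK α ∨ Approx RobustOK α) := by
    intro hS α h
    have hpos : (0 : ℝ) < 9 * (α : ℝ) ^ 2 + 2 := by positivity
    obtain ⟨δ, _, hδ⟩ := hS (1 / (9 * (α : ℝ) ^ 2 + 2)) (by positivity)
    obtain ⟨B, hB, hB'⟩ := (h1 α h).2 (1 / (9 * (α : ℝ) ^ 2 + 2))
      (by rw [one_div_mul_cancel hpos.ne'])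
    exact hδ ⟨B, hB, fun M d s g1 g2 g3 g4 _ => hB' M d s g1 g2 g3 g4⟩
  exact ⟨h1, fun hS α => ⟨fun h => h3 hS α (Or.inl h), fun h => h3 hS α (Or.inr h)⟩⟩

end Pool.Agent.Results.MP_dc7e63_lc.SmallSetHard
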